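import Pool.Agent.Helper702.BP.Coherent

/-!
# MP_70b2ae_gt: cuts with block coherent directions
-/

set_option autoImplicit false

namespace Pool.Agent.Results.MP_70b2ae_gt.BlockCoherentCuts

open Pool.Agent.Helper702.BP

/-- **Main theorem.** Let `C` be a convex body in `E^d` and let `a i` (`i < m`) be directions which
are block coherent with respect to `C`, or which have a common support point. Then, for all
hyperplanes orthogonal to the `a i`, some piece of `C` contains a translate of `C / (m + 1)`. -/
theorem result (d : ℕ) (C : Set (EuclideanSpace ℝ (Fin d))) (hC : IsCompact C)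
    (hconv : Convex ℝ C) (_hint : (interior C).Nonempty) (m : ℕ)
    (a : Fin m → EuclideanSpace ℝ (Fin d)) (b : Fin m → ℝ) (_ha : ∀ i, a i ≠ 0)
    (h : BlockCoherent C a ∨ CommonPoint C a) :
    ∃ σ : Fin m → Bool, ∃ t : EuclideanSpace ℝ (Fin d),
      ∀ x ∈ C,
        t + (1 / ((m : ℝ) + 1)) • x ∈ C ∧
        ∀ i : Fin m,
          (σ i = true → inner ℝ (a i) (t + (1 / ((m : ℝ) + 1)) • x) ≤ b i) ∧
          (σ i = false → b i ≤ inner ℝ (a i) (t + (1 / ((m : ℝ) + 1)) • x)) := by
  have h' : BlockCoherent C a :=
    h.elim id fun h => blockCoherent_of_signCoherent (signCoherent_of_commonPoint hC h)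
  exact cuts_stable hconv h' b

end Pool.Agent.Results.MP_70b2ae_gt.BlockCoherentCuts
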