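import Mathlib
import Pool.Agent.H402.Plank

set_option autoImplicit false

namespace Pool.Agent.Results.MP_70b2ae_gt.TwoLevelCuts

theorem general (d : ℕ) (C : Set (EuclideanSpace ℝ (Fin d))) (hcomp : IsCompact C)
    (hconv : Convex ℝ C)
    (V : Finset (EuclideanSpace ℝ (Fin d))) (w : EuclideanSpace ℝ (Fin d) → ℝ)
    (hVC : (V : Set (EuclideanSpace ℝ (Fin d))) ⊆ C) (hw : ∀ v ∈ V, 0 < w v)
    (hsum : ∑ v ∈ V, w v = 1)
    (m : ℕ) (a : Fin m → EuclideanSpace ℝ (Fin d)) (b : Fin m → ℝ)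
    (hlev : ∀ i, ∀ v ∈ V,
      inner ℝ (a i) v = sSup ((fun x => inner ℝ (a i) x) '' C) ∨
      inner ℝ (a i) v = sInf ((fun x => inner ℝ (a i) x) '' C) ∨
      inner ℝ (a i) v = ∑ x ∈ V, w x * inner ℝ (a i) x)
    (hne : ∀ i, ∃ v ∈ V, inner ℝ (a i) v ≠ ∑ x ∈ V, w x * inner ℝ (a i) x) :
    ∃ σ : Fin m → Bool, ∃ t : EuclideanSpace ℝ (Fin d),
      ∀ x ∈ C,
        t + (1 / ((m : ℝ) + 1)) • x ∈ C ∧
        ∀ i : Fin m,
          (σ i = true → inner ℝ (a i) (t + (1 / ((m : ℝ) + 1)) • x) ≤ b i) ∧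
          (σ i = false → b i ≤ inner ℝ (a i) (t + (1 / ((m : ℝ) + 1)) • x)) := by
  classical
  rcases Nat.eq_zero_or_pos m with hm | hm
  · subst hm
    refine ⟨fun _ => true, 0, ?_⟩
    intro x hx
    refine ⟨by simpa using hx, fun i => i.elim0⟩
  have hmR : (0 : ℝ) < m := by exact_mod_cast hm
  set Mx : Fin m → ℝ := fun i => sSup ((fun x => inner ℝ (a i) x) '' C) with hMx
  set mn : Fin m → ℝ := fun i => sInf ((fun x => inner ℝ (a i) x) '' C) with hmn
  have hcont : ∀ i, Continuous (fun x : EuclideanSpace ℝ (Fin d) => (inner ℝ (a i) x : ℝ)) :=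
    fun i => continuous_const.inner continuous_id
  have hcompi : ∀ i, IsCompact ((fun x : EuclideanSpace ℝ (Fin d) => (inner ℝ (a i) x : ℝ)) '' C) :=
    fun i => hcomp.image (hcont i)
  have hrange : ∀ i, ∀ x ∈ C, mn i ≤ inner ℝ (a i) x ∧ inner ℝ (a i) x ≤ Mx i := by
    intro i x hx
    exact ⟨csInf_le (hcompi i).bddBelow ⟨x, hx, rfl⟩, le_csSup (hcompi i).bddAbove ⟨x, hx, rfl⟩⟩
  let φ : Fin m → EuclideanSpace ℝ (Fin d) →ₗ[ℝ] ℝ := fun i => (innerₛₗ ℝ (a i))
  have hφ : ∀ i x, φ i x = inner ℝ (a i) x := fun i x => rfl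
  obtain ⟨y, hy, hyj⟩ := Pool.Agent.H402.Plank.exists_point V w hw hsum φ mn Mx
    (fun i v hv => hrange i v (hVC (by exact_mod_cast hv))) hlev hne
    (fun i => (b i - (mn i + Mx i) / (2 * ((m : ℝ) + 1))) * (((m : ℝ) + 1) / m))
    (fun _ => 1 / (m : ℝ)) (fun _ => by positivity)
    (by rw [Finset.sum_const, Finset.card_univ, Fintype.card_fin, nsmul_eq_mul]; field_simp)
  have hyC : y ∈ C := convexHull_min hVC hconv hy
  have hm1 : (0 : ℝ) < (m : ℝ) + 1 := by positivity
  refine ⟨fun i => decide (φ i y ≤ (b i - (mn i + Mx i) / (2 * ((m : ℝ) + 1))) *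
    (((m : ℝ) + 1) / m)), ((m : ℝ) / ((m : ℝ) + 1)) • y, ?_⟩
  intro x hx
  refine ⟨hconv hyC hx (by positivity) (by positivity) (by field_simp), ?_⟩
  intro i
  have hin : inner ℝ (a i) (((m : ℝ) / ((m : ℝ) + 1)) • y + (1 / ((m : ℝ) + 1)) • x) =
      ((m : ℝ) / ((m : ℝ) + 1)) * φ i y + (1 / ((m : ℝ) + 1)) * inner ℝ (a i) x := by
    rw [inner_add_right, real_inner_smul_right, real_inner_smul_right, hφ]
  rw [hin]
  have hx1 := hrange i x hx
  have hMm : mn i ≤ Mx i := hx1.1.trans hx1.2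
  have hj := hyj i
  set c : ℝ := (b i - (mn i + Mx i) / (2 * ((m : ℝ) + 1))) * (((m : ℝ) + 1) / m) with hc
  have hcm : ((m : ℝ) / ((m : ℝ) + 1)) * c = b i - (mn i + Mx i) / (2 * ((m : ℝ) + 1)) := by
    rw [hc]
    field_simp
  have hpos : 0 ≤ 1 / (m : ℝ) * (Mx i - mn i) / 2 := by
    have : 0 ≤ Mx i - mn i := by linarith
    positivity
  have hk : ((m : ℝ) / ((m : ℝ) + 1)) * (1 / (m : ℝ) * (Mx i - mn i) / 2) =
      (Mx i - mn i) / (2 * ((m : ℝ) + 1)) := by
    field_simp
  have hmm : 0 ≤ (m : ℝ) / ((m : ℝ) + 1) := by positivity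
  have h1m : 0 ≤ 1 / ((m : ℝ) + 1) := by positivity
  constructor
  · intro hs
    have hs' : φ i y ≤ c := by simpa using hs
    rw [abs_of_nonpos (by linarith)] at hj
    have h2 : φ i y ≤ c - 1 / (m : ℝ) * (Mx i - mn i) / 2 := by linarith
    have h3 := mul_le_mul_of_nonneg_left h2 hmm
    have h4 := mul_le_mul_of_nonneg_left hx1.2 h1m
    have h5 : ((m : ℝ) / ((m : ℝ) + 1)) * (c - 1 / (m : ℝ) * (Mx i - mn i) / 2) =
        b i - 1 / ((m : ℝ) + 1) * Mx i := by
      rw [mul_sub, hcm, hk]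
      field_simp
      ring
    linarith
  · intro hs
    have hs' : ¬ φ i y ≤ c := by simpa using hs
    push Not at hs'
    rw [abs_of_nonneg (by linarith)] at hj
    have h2 : c + 1 / (m : ℝ) * (Mx i - mn i) / 2 ≤ φ i y := by linarith
    have h3 := mul_le_mul_of_nonneg_left h2 hmm
    have h4 := mul_le_mul_of_nonneg_left hx1.1 h1m
    have h5 : ((m : ℝ) / ((m : ℝ) + 1)) * (c + 1 / (m : ℝ) * (Mx i - mn i) / 2) =
        b i - 1 / ((m : ℝ) + 1) * mn i := by
      rw [mul_add, hcm, hk]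
      field_simp
      ring
    linarith

/-- a nonzero functional is not constant on a set whose convex hull has interior. -/
theorem not_const (d : ℕ) (V : Finset (EuclideanSpace ℝ (Fin d)))
    (hint : (interior (convexHull ℝ (V : Set (EuclideanSpace ℝ (Fin d))))).Nonempty)
    (u : EuclideanSpace ℝ (Fin d)) (hu : u ≠ 0) (μ : ℝ) :
    ∃ v ∈ V, inner ℝ u v ≠ μ := by
  by_contra hall
  push Not at hall
  have hsub : convexHull ℝ (V : Set (EuclideanSpace ℝ (Fin d))) ⊆
      {x | (inner ℝ u x : ℝ) = μ} := by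
    refine convexHull_min (fun v hv => hall v (by exact_mod_cast hv)) ?_
    exact convex_hyperplane (innerₛₗ ℝ u : EuclideanSpace ℝ (Fin d) →ₗ[ℝ] ℝ).isLinear μ
  obtain ⟨x, hx⟩ := hint
  rw [mem_interior_iff_mem_nhds, Metric.mem_nhds_iff] at hx
  obtain ⟨r, hr, hball⟩ := hx
  have hxm : (inner ℝ u x : ℝ) = μ := hsub (hball (Metric.mem_ball_self hr))
  have hun : 0 < ‖u‖ := norm_pos_iff.mpr hu
  have hy : x + (r / (2 * ‖u‖)) • u ∈ Metric.ball x r := by
    rw [Metric.mem_ball, dist_eq_norm, add_sub_cancel_left, norm_smul, Real.norm_eq_abs,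
      abs_of_pos (by positivity)]
    have : r / (2 * ‖u‖) * ‖u‖ = r / 2 := by field_simp
    rw [this]; linarith
  have hym : (inner ℝ u (x + (r / (2 * ‖u‖)) • u) : ℝ) = μ := hsub (hball hy)
  rw [inner_add_right, inner_smul_right, hxm, real_inner_self_eq_norm_sq u] at hym
  have : 0 < r / (2 * ‖u‖) * ‖u‖ ^ 2 := by positivity
  linarith

/-- Write `E = EuclideanSpace ℝ (Fin d)`.
(1) Let `C ⊂ E` be a convex body, `V ⊆ C` a finite set with positive weights `w` of sum 1 and
`H_i = {x | ⟪a i, x⟫ = b i}`, `i < m`, hyperplanes such that every point of `V` lies on one of the two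
supporting hyperplanes of `C` parallel to `H_i` or on the parallel hyperplane through the `w`-centroid of
`V`, not all points of `V` lying on the latter. Then some piece of `C` cut out by choosing a closed side of
each `H_i` contains a translate of `(1/(m+1)) C`.
(2) The same for every full-dimensional polytope `C = conv V` and hyperplanes `H_i` such that `⟪a i, ·⟫`
takes at most two values on `V`. -/
theorem result :
    (∀ (d : ℕ) (C : Set (EuclideanSpace ℝ (Fin d))),
      IsCompact C → Convex ℝ C → (interior C).Nonempty →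
      ∀ (V : Finset (EuclideanSpace ℝ (Fin d))) (w : EuclideanSpace ℝ (Fin d) → ℝ),
        (V : Set (EuclideanSpace ℝ (Fin d))) ⊆ C → (∀ v ∈ V, 0 < w v) → ∑ v ∈ V, w v = 1 →
      ∀ m : ℕ, ∀ a : Fin m → EuclideanSpace ℝ (Fin d), ∀ b : Fin m → ℝ,
        (∀ i, a i ≠ 0) →
        (∀ i, ∀ v ∈ V,
          inner ℝ (a i) v = sSup ((fun x => inner ℝ (a i) x) '' C) ∨
          inner ℝ (a i) v = sInf ((fun x => inner ℝ (a i) x) '' C) ∨
          inner ℝ (a i) v = ∑ x ∈ V, w x * inner ℝ (a i) x) →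
        (∀ i, ∃ v ∈ V, inner ℝ (a i) v ≠ ∑ x ∈ V, w x * inner ℝ (a i) x) →
        ∃ σ : Fin m → Bool, ∃ t : EuclideanSpace ℝ (Fin d),
          ∀ x ∈ C,
            t + (1 / ((m : ℝ) + 1)) • x ∈ C ∧
            ∀ i : Fin m,
              (σ i = true → inner ℝ (a i) (t + (1 / ((m : ℝ) + 1)) • x) ≤ b i) ∧
              (σ i = false → b i ≤ inner ℝ (a i) (t + (1 / ((m : ℝ) + 1)) • x))) ∧
    (∀ (d : ℕ) (V : Finset (EuclideanSpace ℝ (Fin d))),
      (interior (convexHull ℝ (V : Set (EuclideanSpace ℝ (Fin d))))).Nonempty →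
      ∀ m : ℕ, ∀ a : Fin m → EuclideanSpace ℝ (Fin d), ∀ b : Fin m → ℝ,
        (∀ i, a i ≠ 0) →
        (∀ i, ∃ α β : ℝ, ∀ v ∈ V, inner ℝ (a i) v = α ∨ inner ℝ (a i) v = β) →
        ∃ σ : Fin m → Bool, ∃ t : EuclideanSpace ℝ (Fin d),
          ∀ x ∈ convexHull ℝ (V : Set (EuclideanSpace ℝ (Fin d))),
            t + (1 / ((m : ℝ) + 1)) • x ∈ convexHull ℝ (V : Set (EuclideanSpace ℝ (Fin d))) ∧
            ∀ i : Fin m,
              (σ i = true → inner ℝ (a i) (t + (1 / ((m : ℝ) + 1)) • x) ≤ b i) ∧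
              (σ i = false → b i ≤ inner ℝ (a i) (t + (1 / ((m : ℝ) + 1)) • x))) := by
  refine ⟨?_, ?_⟩
  · intro d C hC hcv _ V w hVC hw hs m a b _ hlev hne
    exact general d C hC hcv V w hVC hw hs m a b hlev hne
  · intro d V hint m a b ha hlev
    classical
    have hVne : V.Nonempty := by
      rcases V.eq_empty_or_nonempty with h | h
      · rw [h] at hint; simp at hint
      · exact h
    have hcard : (0 : ℝ) < V.card := by exact_mod_cast hVne.card_pos
    have hcomp : IsCompact (convexHull ℝ (V : Set (EuclideanSpace ℝ (Fin d)))) :=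
      V.finite_toSet.isCompact_convexHull (𝕜 := ℝ)
    refine general d (convexHull ℝ (V : Set (EuclideanSpace ℝ (Fin d)))) hcomp
      (convex_convexHull ℝ _) V (fun _ => 1 / V.card) (subset_convexHull ℝ _)
      (fun _ _ => by positivity) (by rw [Finset.sum_const, nsmul_eq_mul]; field_simp) m a b
      (fun i v hv => ?_) (fun i => not_const d V hint (a i) (ha i) _)
    obtain ⟨α, β, hαβ⟩ := hlev i
    have hcont : Continuous (fun x : EuclideanSpace ℝ (Fin d) => (inner ℝ (a i) x : ℝ)) :=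
      continuous_const.inner continuous_id
    have hci := hcomp.image hcont
    have hvC : v ∈ convexHull ℝ (V : Set (EuclideanSpace ℝ (Fin d))) :=
      subset_convexHull ℝ _ (by exact_mod_cast hv)
    have hle1 : (inner ℝ (a i) v : ℝ) ≤ sSup ((fun x => (inner ℝ (a i) x : ℝ)) ''
        (convexHull ℝ (V : Set (EuclideanSpace ℝ (Fin d))))) :=
      le_csSup hci.bddAbove ⟨v, hvC, rfl⟩
    have hle2 : sInf ((fun x => (inner ℝ (a i) x : ℝ)) ''
        (convexHull ℝ (V : Set (EuclideanSpace ℝ (Fin d))))) ≤ (inner ℝ (a i) v : ℝ) :=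
      csInf_le hci.bddBelow ⟨v, hvC, rfl⟩
    have key : (∀ u ∈ V, (inner ℝ (a i) u : ℝ) ≤ inner ℝ (a i) v) ∨
        (∀ u ∈ V, (inner ℝ (a i) v : ℝ) ≤ inner ℝ (a i) u) := by
      rcases le_total α β with hab | hab
      · rcases hαβ v hv with h | h
        · right
          intro u hu
          rcases hαβ u hu with h' | h' <;> rw [h, h'] <;> linarith
        · left
          intro u hu
          rcases hαβ u hu with h' | h' <;> rw [h, h'] <;> linarith
      · rcases hαβ v hv with h | h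
        · left
          intro u hu
          rcases hαβ u hu with h' | h' <;> rw [h, h'] <;> linarith
        · right
          intro u hu
          rcases hαβ u hu with h' | h' <;> rw [h, h'] <;> linarith
    rcases key with hk | hk
    · left
      apply le_antisymm hle1
      apply csSup_le (Set.Nonempty.image _ ⟨v, hvC⟩)
      rintro z ⟨x, hx, rfl⟩
      have hsub : convexHull ℝ (V : Set (EuclideanSpace ℝ (Fin d))) ⊆
          {x | (inner ℝ (a i) x : ℝ) ≤ inner ℝ (a i) v} := by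
        refine convexHull_min (fun u hu => hk u (by exact_mod_cast hu)) ?_
        exact convex_halfSpace_le
          (innerₛₗ ℝ (a i) : EuclideanSpace ℝ (Fin d) →ₗ[ℝ] ℝ).isLinear _
      exact hsub hx
    · right; left
      apply le_antisymm ?_ hle2
      apply le_csInf (Set.Nonempty.image _ ⟨v, hvC⟩)
      rintro z ⟨x, hx, rfl⟩
      have hsub : convexHull ℝ (V : Set (EuclideanSpace ℝ (Fin d))) ⊆
          {x | (inner ℝ (a i) v : ℝ) ≤ inner ℝ (a i) x} := by
        refine convexHull_min (fun u hu => hk u (by exact_mod_cast hu)) ?_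
        exact convex_halfSpace_ge
          (innerₛₗ ℝ (a i) : EuclideanSpace ℝ (Fin d) →ₗ[ℝ] ℝ).isLinear _
      exact hsub hx

end Pool.Agent.Results.MP_70b2ae_gt.TwoLevelCuts
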